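import Pool.Agent.Helper54.Hf.S13
import Pool.Agent.Helper54.Nm.C2

set_option autoImplicit false

/-!
Project PP54: a positive proportion of the zeros of `H_t` at height `T` is not real for `t = - C / log ^ 2 T`.
`fx w` is xi(1/2 + w); `Hx t` is the heat flow, `Hx 0 = fx`; real zeros of `H_t` are the zeros of `Hx t` with real part 0;
`L = log T` throughout; `deriv fx / fx` is about `L / 2` to the right of the line.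
-/

open Complex MeasureTheory Set Filter Topology

namespace Pool.Agent.Helper54.Pp

open Pool.Agent.Helper54.Xm Pool.Agent.Helper54.Hf Pool.Agent.Helper54.Nt Pool.Agent.Helper54.Nm

/-- the logarithmic derivative -/
noncomputable def psi (F : ℂ → ℂ) (p : ℂ) : ℂ := deriv F p / F p

/-- goodness of xi around the height `x0` on all scales from `V0` on -/
def MG (ε T V0 x0 : ℝ) : Prop := ∀ i : ℕ, V0 * 2 ^ i ≤ 3 / 4 →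
  Good fx (Real.log T) ε (V0 * 2 ^ i) (120 * (V0 * 2 ^ i)) x0

/-- DISC: two constants theorem on discs. Maximum principle for `φ / (z - z0) ^ m` on the annulus `a R < |z - z0| < c R`,
`m` natural with `(b / c) ^ m ≤ δ / K`, `ε = δ (a / b) ^ m`. -/
def S_Disc : Prop := ∀ a b c K δ : ℝ, 0 < a → a < b → b < c → 0 < K → 0 < δ → ∃ ε : ℝ, 0 < ε ∧
  ∀ (φ : ℂ → ℂ) (z0 : ℂ) (R L : ℝ), 0 < R → 0 < L →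
    (∀ z, ‖z - z0‖ ≤ c * R → DifferentiableAt ℂ φ z ∧ ‖φ z‖ ≤ K * L) →
    (∀ z, ‖z - z0‖ ≤ a * R → ‖φ z‖ ≤ ε * L) →
    ∀ z, ‖z - z0‖ ≤ b * R → ‖φ z‖ ≤ δ * L

/-- BOX: maximum principle for `F(z) exp(- A' cos(π (z - i x) / (4 V)))` on `|Re z| ≤ V`, `|Im z - x| ≤ N V`,
`A' = B / (cos(π/4) cosh(π N / 4))`; `|F(-V + i y)| = |F(V + i y)|` by `Sym`. -/
def S_Box : Prop := ∀ (F : ℂ → ℂ) (V x N A B : ℝ), Differentiable ℂ F → Sym F → 0 < V → 1 ≤ N →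
  0 ≤ A → 0 ≤ B →
  (∀ v y : ℝ, |v| ≤ V → |y - x| ≤ N * V → ‖F ⟨v, y⟩‖ ≤ ‖F ⟨V, x⟩‖ * Real.exp B) →
  (∀ y : ℝ, |y - x| ≤ N * V → ‖F ⟨V, y⟩‖ ≤ ‖F ⟨V, x⟩‖ * Real.exp A) →
  ∀ v : ℝ, |v| ≤ V → ‖F ⟨v, x⟩‖ ≤ ‖F ⟨V, x⟩‖ * Real.exp (A + 3 * B * Real.exp (-(N / 2)))

/-- FIX: `|f'| ≤ 1/2` on the ball of radius `r/2` by Cauchy, contraction of the closed ball of radius `r/4`. -/
def S_Fix : Prop := ∀ (f : ℂ → ℂ) (c : ℂ) (r : ℝ), 0 < r → DifferentiableOn ℂ f (Metric.ball c r) →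
  (∀ p ∈ Metric.ball c r, ‖f p - c‖ ≤ r / 4) → ∃ p, ‖p - c‖ ≤ r / 4 ∧ f p = p

/-- BS: the saddle point `q` of the backward flow. With `g(u) = F(q + iu) / F(q) exp(- i u ψ - u²/4τ)`, `ψ = psi F q`:
`√(4πτ) G w = F(q) exp((q-w)²/4τ) ∫ g`, `G'/G (w) = ψ - (i / 2τ) (∫ u g) / (∫ g)`, and `|g - exp(-u²/4τ)| ≤ κ (u²/τ) exp(-7u²/32τ)`
for `|u| ≤ S`, `|g| ≤ exp(-u²/8τ)` for `|u| ≥ S`. -/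
def S_BS : Prop := ∀ (F G : ℂ → ℂ) (τ κ S B : ℝ) (w q : ℂ), 0 < τ → Continuous F →
  ((Real.sqrt (4 * Real.pi * τ) : ℂ) * G w = ∫ u : ℝ, F (q + I * u) * cexp ((q + I * u - w) ^ 2 / (4 * τ))) →
  ((Real.sqrt (4 * Real.pi * τ) : ℂ) * deriv G w =
    ∫ u : ℝ, F (q + I * u) * cexp ((q + I * u - w) ^ 2 / (4 * τ)) * (-(q + I * u - w) / (2 * τ))) →
  F q ≠ 0 → q - w = -(2 * τ * psi F q) → 0 ≤ κ → κ ≤ 1 / 32 → 0 < S → 125 * τ ≤ S ^ 2 →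
  (∀ u : ℝ, |u| ≤ S → ∃ E : ℂ, ‖E‖ ≤ κ * (u ^ 2 / τ) ∧ F (q + I * u) = F q * cexp (I * u * psi F q + E)) →
  (∀ u : ℝ, S ≤ |u| → ‖F (q + I * u)‖ ≤ ‖F q‖ * Real.exp (B * |u|)) →
  8 * τ * (|(psi F q).im| + B) ≤ S →
  G w ≠ 0 ∧ ‖psi G w - psi F q‖ ≤ 20 * (κ + Real.exp (-(S ^ 2 / (16 * τ)))) / Real.sqrt τ ∧
  1 / 2 * ‖F q‖ * Real.exp (((q - w) ^ 2 / (4 * τ)).re) ≤ ‖G w‖

/-- LINE: from `Nt.Hx_neg` (translate `u`); the second by differentiation under the integral, `|fx|` is bounded on vertical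
lines by `fx_gr`. -/
def S_Line : Prop := ∀ (τ : ℝ) (w q : ℂ), 0 < τ → τ ≤ 1 →
  ((Real.sqrt (4 * Real.pi * τ) : ℂ) * Hx (-τ) w =
    ∫ u : ℝ, fx (q + I * u) * cexp ((q + I * u - w) ^ 2 / (4 * τ))) ∧
  ((Real.sqrt (4 * Real.pi * τ) : ℂ) * deriv (Hx (-τ)) w =
    ∫ u : ℝ, fx (q + I * u) * cexp ((q + I * u - w) ^ 2 / (4 * τ)) * (-(q + I * u - w) / (2 * τ)))

/-- CONE: the largest scale `V0 2^i ≤ p.re` is at least `p.re / 2`. -/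
def S_Cone : Prop := ∀ ε T V0 x0 : ℝ, 0 < V0 → V0 ≤ 3 / 8 → MG ε T V0 x0 →
  ∀ p : ℂ, V0 ≤ p.re → p.re ≤ 3 / 4 → |p.im - x0| ≤ 60 * p.re →
    fx p ≠ 0 ∧ ‖psi fx p - Real.log T / 2‖ ≤ ε * (Real.log T + p.re)

/-- UBF: growth of xi along vertical lines (see the sheet). -/
def S_UBF : Prop := ∃ T0 : ℝ, 1000 ≤ T0 ∧ ∀ T V0 x0 ε : ℝ, T0 ≤ T → 0 < V0 → V0 ≤ 3 / 8 → 0 < ε → ε ≤ 1 / 1000 →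
  3 * T / 4 ≤ x0 → x0 ≤ 5 * T / 2 → MG ε T V0 x0 →
  ∀ q : ℂ, V0 ≤ q.re → q.re ≤ 7 / 10 → |q.im - x0| ≤ 10 * q.re → ∀ u : ℝ,
    ‖fx (q + I * u)‖ ≤ ‖fx q‖ * Real.exp (Real.log T * |u| / 40)

/-- NEAR: `Hx (-τ)` to the right of `2 τ L`. -/
def S_Near : Prop := ∀ ε' : ℝ, 0 < ε' → ∃ ε0 Λ T0 : ℝ, 0 < ε0 ∧ 1 ≤ Λ ∧ 1000 ≤ T0 ∧
  ∀ T τ x0 ε : ℝ, T0 ≤ T → 0 < τ → Λ ≤ τ * Real.log T ^ 2 → τ * Real.log T ≤ 1 / 100 →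
  0 < ε → ε ≤ ε0 → 3 * T / 4 ≤ x0 → x0 ≤ 5 * T / 2 → MG ε T (τ * Real.log T / 8) x0 →
  ∀ w : ℂ, 2 * (τ * Real.log T) ≤ w.re → w.re ≤ 7 / 10 → |w.im - x0| ≤ 8 * (τ * Real.log T) →
  Hx (-τ) w ≠ 0 ∧ ‖psi (Hx (-τ)) w - Real.log T / 2‖ ≤ ε' * Real.log T ∧
  ∃ q : ℂ, ‖q - (w - (τ * Real.log T : ℝ))‖ ≤ τ * Real.log T / 100 ∧ 1 / 2 * ‖fx q‖ ≤ ‖Hx (-τ) w‖

/-- FAR: `Hx (-τ)` to the right of `7 / 10`. -/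
def S_Far : Prop := ∀ ε' : ℝ, 0 < ε' → ∃ T0 : ℝ, 1000 ≤ T0 ∧ ∀ T τ : ℝ, T0 ≤ T → 0 < τ →
  τ * Real.log T ≤ 1 / 100 → ∀ w : ℂ, 7 / 10 ≤ w.re → T / 2 ≤ w.im → w.im ≤ 3 * T →
  Hx (-τ) w ≠ 0 ∧ ‖psi (Hx (-τ)) w - Real.log T / 2‖ ≤ ε' * (Real.log T + w.re)

/-- UB: upper bound for `Hx (-τ)` in the window. -/
def S_UB : Prop := ∃ ε0 Λ T0 : ℝ, 0 < ε0 ∧ 1 ≤ Λ ∧ 1000 ≤ T0 ∧
  ∀ T τ x0 ε : ℝ, T0 ≤ T → 0 < τ → Λ ≤ τ * Real.log T ^ 2 → τ * Real.log T ≤ 1 / 100 →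
  0 < ε → ε ≤ ε0 → 3 * T / 4 ≤ x0 → x0 ≤ 5 * T / 2 → MG ε T (τ * Real.log T / 8) x0 →
  ∀ w w1 : ℂ, |w.re| ≤ 8 * (τ * Real.log T) → |w.im - x0| ≤ 8 * (τ * Real.log T) →
  w1.re = 4 * (τ * Real.log T) → |w1.im - x0| ≤ 8 * (τ * Real.log T) →
  ‖Hx (-τ) w‖ ≤ ‖Hx (-τ) w1‖ * Real.exp (30 * (τ * Real.log T ^ 2))

/-- the zero `w` of xi is simple, on the line, and isolated in height -/
def Iso (δ L : ℝ) (w : ℂ) : Prop := w.re = 0 ∧ deriv fx w ≠ 0 ∧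
  ∀ v : ℂ, fx v = 0 → v ≠ w → (1 - δ) * (2 * Real.pi / L) ≤ |v.im - w.im|

/-- REG (helper54): regular zeros in good windows in which all zeros of `Hx (-τ)` are real. -/
def S_Reg : Prop := ∀ δ : ℝ, 0 < δ → δ ≤ 1 / 2 → ∃ ε Λ T0 : ℝ, 0 < ε ∧ ε ≤ 1 / 6400 ∧ 1 ≤ Λ ∧ 1000 ≤ T0 ∧
  ∀ T τ x0 : ℝ, T0 ≤ T → 0 < τ → Λ ≤ τ * Real.log T ^ 2 → τ * Real.log T ≤ 1 / 100 →
  3 * T / 4 ≤ x0 → x0 ≤ 5 * T / 2 → MG ε T (τ * Real.log T / 8) x0 →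
  (∀ z : ℂ, Hx (-τ) z = 0 → |z.im - x0| ≤ 8 * (τ * Real.log T) → z.re = 0) →
  ∀ w : ℂ, fx w = 0 → |w.im - x0| ≤ τ * Real.log T / 2 → Iso δ (Real.log T) w

/-- STAT: from `Hf.good_stat` with `U = 16 V0 2^i` and the nearest multiple of `U`, and `Hf.sum_scales`. -/
def S_Stat : Prop := ∀ ε : ℝ, 0 < ε → ∃ C c C0 T0 : ℝ, 1 ≤ C ∧ 0 < c ∧ 1 ≤ C0 ∧ 1000 ≤ T0 ∧
  ∀ T V0 : ℝ, T0 ≤ T → C0 ≤ V0 * Real.log T → V0 ≤ 3 / 8 → ∀ S : Finset ℕ,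
  (∀ n ∈ S, 4 * T / 5 ≤ n * (8 * V0) ∧ n * (8 * V0) ≤ 12 * T / 5) →
  (∀ n ∈ S, ¬ MG ε T V0 (n * (8 * V0))) →
  (S.card : ℝ) ≤ C * (T / V0) * Real.exp (-(c * (V0 * Real.log T)))

/-- CNT: zeros of xi in a good window, by Jensen (model: `Hf.Good.count` in Hf/J1, with `H` replaced by `fx`). -/
def S_Cnt : Prop := ∃ K T0 : ℝ, 1 ≤ K ∧ 1000 ≤ T0 ∧ ∀ T V0 x0 ε : ℝ, T0 ≤ T → 1 ≤ V0 * Real.log T →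
  V0 ≤ 3 / 4 → 0 < ε → ε ≤ 1 / 6400 → T / 2 ≤ x0 → x0 ≤ 3 * T →
  Good fx (Real.log T) ε V0 (120 * V0) x0 → ∀ S : Finset ℂ,
  (∀ w ∈ S, fx w = 0 ∧ |w.im - x0| ≤ 8 * V0) → ∑ w ∈ S, (H370.mult fx w : ℝ) ≤ K * (V0 * Real.log T)

/-- MASS: zeros of xi in the cells which are not good (model: `Hf.multi3` in Hf/S12, with CNT in the place of `win_count3`). -/
def S_Mass : Prop := ∀ ε : ℝ, 0 < ε → ε ≤ 1 / 6400 → ∃ C c C0 T0 : ℝ, 1 ≤ C ∧ 0 < c ∧ 1 ≤ C0 ∧ 1000 ≤ T0 ∧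
  ∀ T V0 : ℝ, T0 ≤ T → C0 ≤ V0 * Real.log T → V0 ≤ 3 / 8 → ∀ S : Finset ℂ,
  (∀ w ∈ S, fx w = 0 ∧ T < w.im ∧ w.im ≤ 2 * T) →
  (∀ w ∈ S, ∀ n : ℕ, |w.im - n * (8 * V0)| ≤ 4 * V0 → ¬ MG ε T V0 (n * (8 * V0))) →
  ∑ w ∈ S, (H370.mult fx w : ℝ) ≤ C * (T * Real.log T) * Real.exp (-(c * (V0 * Real.log T)))

/-- LIB: `GapsForEveryPolynomial.result` with `N = 1`, `b = 1`, translated to `fx`. -/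
def S_Lib : Prop := ∃ η c T0 : ℝ, 0 < η ∧ η ≤ 1 / 2 ∧ 0 < c ∧ 1000 ≤ T0 ∧ ∀ T : ℝ, T0 ≤ T →
  ∃ S : Finset ℂ, c * (T * Real.log T) ≤ ∑ w ∈ S, (H370.mult fx w : ℝ) ∧
  ∀ w ∈ S, fx w = 0 ∧ T < w.im ∧ w.im ≤ 2 * T ∧ (2 ≤ H370.mult fx w ∨
    ∃ v : ℂ, fx v = 0 ∧ v ≠ w ∧ |v.im - w.im| ≤ (1 - η) * (2 * Real.pi / Real.log T))

/-- FINAL: positive proportion. -/
def S_Final : Prop := ∃ C c T0 : ℝ, 1 ≤ C ∧ 0 < c ∧ 1000 ≤ T0 ∧ ∀ T τ : ℝ, T0 ≤ T →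
  C ≤ τ * Real.log T ^ 2 → τ * Real.log T ≤ 1 / 100 →
  ∃ S : Finset ℂ, (∀ z ∈ S, Hx (-τ) z = 0 ∧ 0 < z.re ∧ T / 2 < z.im ∧ z.im < 3 * T) ∧
    c * (T / (τ * Real.log T)) ≤ (S.card : ℝ)

end Pool.Agent.Helper54.Pp
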